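import Pool.Agent.J4.H28.BC.Chain

/-!
# Kernel friendly checks of chains of stellar exchanges
-/

set_option autoImplicit false

namespace Pool.Agent.J4.H28.BC

open Finset Pool.Agent.Helper175.NS

/-- A stellar exchange: the vertices of the two faces, their masks, the masks of the remaining
parts and the new facets. -/
structure Stp where
  R : List ℕ
  R' : List ℕ
  r : ℕ
  r' : ℕ
  K : List ℕ
  new : List ℕ

/-- conjunction -/
noncomputable def an (x y : Bool) : Bool := Bool.rec false y x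

/-- disjunction -/
noncomputable def od (x y : Bool) : Bool := Bool.rec y true x

/-- negation -/
noncomputable def ng (x : Bool) : Bool := Bool.rec true false x

/-- splitting of a list: facets containing `ρ`, the others (none contains `ρ'`) -/
noncomputable def trav (ρ ρ' : ℕ) (k : List ℕ → List ℕ → Bool) (l : List ℕ) :
    List ℕ → List ℕ → Bool :=
  List.rec (motive := fun _ => List ℕ → List ℕ → Bool) (fun a b => k a b)
    (fun m _ ih a b =>
      Bool.rec (motive := fun _ => Bool)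
        (Bool.rec (motive := fun _ => Bool) (ih a (m :: b)) false (Nat.beq (Nat.land m ρ') ρ'))
        (ih (m :: a) b) (Nat.beq (Nat.land m ρ) ρ)) l

/-- `List.all` -/
noncomputable def al {α : Type} (p : α → Bool) (l : List α) : Bool :=
  List.rec (motive := fun _ => Bool) true (fun m _ ih => Bool.rec false ih (p m)) l

/-- `List.any` -/
noncomputable def ay {α : Type} (p : α → Bool) (l : List α) : Bool :=
  List.rec (motive := fun _ => Bool) false (fun m _ ih => Bool.rec ih true (p m)) l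

/-- pushing the elements of a list onto another one -/
noncomputable def psh (k : List ℕ → Bool) (l : List ℕ) : List ℕ → Bool :=
  List.rec (motive := fun _ => List ℕ → Bool) (fun b => k b) (fun m _ ih b => ih (m :: b)) l

/-- equality of lists -/
noncomputable def eql (l : List ℕ) : List ℕ → Bool :=
  List.rec (motive := fun _ => List ℕ → Bool)
    (fun t => List.rec (motive := fun _ => Bool) true (fun _ _ _ => false) t)
    (fun m _ ih t => List.rec (motive := fun _ => Bool) false
      (fun x t' _ => Bool.rec false (ih t') (Nat.beq m x)) t) l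

/-- the mask of a list of vertices -/
noncomputable def msk (l : List ℕ) : ℕ :=
  List.rec (motive := fun _ => ℕ) 0 (fun i _ ih => Nat.lor (Nat.pow 2 i) ih) l

/-- local check of an exchange -/
noncomputable def loc (R R' : List ℕ) (r r' : ℕ) (K new a : List ℕ) : Bool :=
  an (Nat.beq (msk R) r) <| an (Nat.beq (msk R') r') <|
  an (al (fun i => Nat.ble i 62) R) <| an (al (fun i => Nat.ble i 62) R') <|
  an (ay (fun _ => true) R) <| an (ay (fun _ => true) R') <|
  an (al (fun k => an (Nat.beq (Nat.land k r) 0) (Nat.beq (Nat.land k r') 0)) K) <|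
  an (Nat.beq (Nat.land r r') 0) <|
  an (al (fun m => Nat.ble m 9223372036854775807) new) <|
  an (al (fun m => ay (fun k => ay (fun z =>
    Nat.beq m (Nat.lor (Nat.lor k r) (Nat.xor r' (Nat.pow 2 z)))) R') K) a) <|
  an (al (fun k => al (fun z => ay (fun m =>
    Nat.beq m (Nat.lor (Nat.lor k r) (Nat.xor r' (Nat.pow 2 z)))) a) R') K) <|
  an (al (fun m => ay (fun k => ay (fun z =>
    Nat.beq m (Nat.lor (Nat.lor k r') (Nat.xor r (Nat.pow 2 z)))) R) K) new) <|
  al (fun k => al (fun z => ay (fun m =>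
    Nat.beq m (Nat.lor (Nat.lor k r') (Nat.xor r (Nat.pow 2 z)))) new) R) K

/-- the chain -/
noncomputable def ch (t : List ℕ) (s : List Stp) : List ℕ → Bool :=
  List.rec (motive := fun _ => List ℕ → Bool) (fun l => eql l t)
    (fun p _ ih l => Stp.rec (motive := fun _ => Bool)
      (fun R R' r r' K new =>
        trav r r' (fun a b => an (loc R R' r r' K new a) (psh ih new b)) l [] []) p) s

/-! ### Soundness of the basic functions -/

theorem an_iff {x y : Bool} : an x y = true ↔ x = true ∧ y = true := by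
  cases x <;> cases y <;> simp [an]

theorem od_iff {x y : Bool} : od x y = true ↔ x = true ∨ y = true := by
  cases x <;> cases y <;> simp [od]

theorem ng_iff {x : Bool} : ng x = true ↔ ¬ x = true := by
  cases x <;> simp [ng]

theorem al_cons {α : Type} (p : α → Bool) (m : α) (l : List α) :
    al p (m :: l) = an (p m) (al p l) := by
  show Bool.rec false (al p l) (p m) = an (p m) (al p l)
  rfl

theorem ay_cons {α : Type} (p : α → Bool) (m : α) (l : List α) :
    ay p (m :: l) = od (p m) (ay p l) := by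
  show Bool.rec (ay p l) true (p m) = od (p m) (ay p l)
  rfl

theorem al_iff {α : Type} {p : α → Bool} {l : List α} :
    al p l = true ↔ ∀ m ∈ l, p m = true := by
  induction l with
  | nil => simp [al]
  | cons m l ih => rw [al_cons, an_iff, ih, List.forall_mem_cons]

theorem ay_iff {α : Type} {p : α → Bool} {l : List α} :
    ay p l = true ↔ ∃ m ∈ l, p m = true := by
  induction l with
  | nil => simp [ay]
  | cons m l ih => rw [ay_cons, od_iff, ih]; simp

theorem psh_eq (k : List ℕ → Bool) (l : List ℕ) : ∀ b, psh k l b = k (l.reverse ++ b) := by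
  induction l with
  | nil => intro b; rfl
  | cons m l ih =>
    intro b
    have h : psh k (m :: l) b = psh k l (m :: b) := rfl
    rw [h, ih]
    simp

theorem eql_eq (l : List ℕ) : ∀ t, eql l t = true → l = t := by
  induction l with
  | nil =>
    intro t h
    cases t with
    | nil => rfl
    | cons x t => exact absurd h (by simp [eql])
  | cons m l ih =>
    intro t h
    cases t with
    | nil => exact absurd h (by simp [eql])
    | cons x t =>
      have h1 : eql (m :: l) (x :: t) = an (Nat.beq m x) (eql l t) := rfl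
      rw [h1, an_iff, beq_iff] at h
      rw [h.1, ih t h.2]

theorem trav_spec (ρ ρ' : ℕ) (k : List ℕ → List ℕ → Bool) (l : List ℕ) : ∀ a b : List ℕ,
    trav ρ ρ' k l a b = true → ∃ a' b', k a' b' = true ∧
      (∀ m, m ∈ a' ↔ m ∈ a ∨ (m ∈ l ∧ m &&& ρ = ρ)) ∧
      (∀ m, m ∈ b' ↔ m ∈ b ∨ (m ∈ l ∧ m &&& ρ ≠ ρ)) ∧
      (∀ m ∈ l, m &&& ρ ≠ ρ → m &&& ρ' ≠ ρ') := by
  induction l with
  | nil =>
    intro a b h
    exact ⟨a, b, h, by simp, by simp, by simp⟩
  | cons x l ih =>
    intro a b h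
    have h1 : trav ρ ρ' k (x :: l) a b = Bool.rec (motive := fun _ => Bool)
        (Bool.rec (motive := fun _ => Bool) (trav ρ ρ' k l a (x :: b)) false
          (Nat.beq (Nat.land x ρ') ρ')) (trav ρ ρ' k l (x :: a) b) (Nat.beq (Nat.land x ρ) ρ) := rfl
    rw [h1] at h
    cases hx : Nat.beq (Nat.land x ρ) ρ with
    | true =>
      rw [hx] at h
      obtain ⟨a', b', h2, h3, h4, h5⟩ := ih _ _ h
      have hx' : x &&& ρ = ρ := beq_iff.1 hx
      refine ⟨a', b', h2, ?_, ?_, ?_⟩
      · intro m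
        rw [h3, List.mem_cons, List.mem_cons]
        constructor
        · rintro ((rfl | h) | h)
          · exact Or.inr ⟨Or.inl rfl, hx'⟩
          · exact Or.inl h
          · exact Or.inr ⟨Or.inr h.1, h.2⟩
        · rintro (h | ⟨rfl | h, h6⟩)
          · exact Or.inl (Or.inr h)
          · exact Or.inl (Or.inl rfl)
          · exact Or.inr ⟨h, h6⟩
      · intro m
        rw [h4, List.mem_cons]
        constructor
        · rintro (h | h)
          · exact Or.inl h
          · exact Or.inr ⟨Or.inr h.1, h.2⟩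
        · rintro (h | ⟨rfl | h, h6⟩)
          · exact Or.inl h
          · exact absurd hx' h6
          · exact Or.inr ⟨h, h6⟩
      · intro m hm hne
        rcases List.mem_cons.1 hm with rfl | hm
        · exact absurd hx' hne
        · exact h5 m hm hne
    | false =>
      rw [hx] at h
      have hxn : x &&& ρ ≠ ρ := fun hcon => by
        have : Nat.beq (Nat.land x ρ) ρ = true := beq_iff.2 hcon
        rw [hx] at this
        exact absurd this (by simp)
      cases hy : Nat.beq (Nat.land x ρ') ρ' with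
      | true => rw [hy] at h; exact absurd h (by simp)
      | false =>
        rw [hy] at h
        have hyn : x &&& ρ' ≠ ρ' := fun hcon => by
          have : Nat.beq (Nat.land x ρ') ρ' = true := beq_iff.2 hcon
          rw [hy] at this
          exact absurd this (by simp)
        obtain ⟨a', b', h2, h3, h4, h5⟩ := ih _ _ h
        refine ⟨a', b', h2, ?_, ?_, ?_⟩
        · intro m
          rw [h3, List.mem_cons]
          constructor
          · rintro (h | h)
            · exact Or.inl h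
            · exact Or.inr ⟨Or.inr h.1, h.2⟩
          · rintro (h | ⟨rfl | h, h6⟩)
            · exact Or.inl h
            · exact absurd h6 hxn
            · exact Or.inr ⟨h, h6⟩
        · intro m
          rw [h4, List.mem_cons, List.mem_cons]
          constructor
          · rintro ((rfl | h) | h)
            · exact Or.inr ⟨Or.inl rfl, hxn⟩
            · exact Or.inl h
            · exact Or.inr ⟨Or.inr h.1, h.2⟩
          · rintro (h | ⟨rfl | h, h6⟩)
            · exact Or.inl (Or.inr h)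
            · exact Or.inl (Or.inl rfl)
            · exact Or.inr ⟨h, h6⟩
        · intro m hm hne
          rcases List.mem_cons.1 hm with rfl | hm
          · exact hyn
          · exact h5 m hm hne

/-! ### Masks -/

theorem de_or (a b : ℕ) : de (a ||| b) = de a ∪ de b := by
  ext i
  rw [mem_union, mem_de, mem_de, mem_de, Nat.testBit_or, Bool.or_eq_true]
  tauto

theorem de_and (a b : ℕ) : de (a &&& b) = de a ∩ de b := by
  ext i
  rw [mem_inter, mem_de, mem_de, mem_de, Nat.testBit_and, Bool.and_eq_true]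
  tauto

theorem de_pow {a : ℕ} (ha : a < 64) : de (2 ^ a) = {a} := by
  ext i
  rw [mem_de, mem_singleton, Nat.testBit_two_pow]
  simp only [decide_eq_true_eq]
  constructor
  · rintro ⟨-, rfl⟩; rfl
  · rintro rfl; exact ⟨ha, rfl⟩

theorem de_zero : de 0 = ∅ := by
  ext i
  simp [mem_de]

theorem de_xor {m z : ℕ} (hz : z ∈ de m) : de (m ^^^ 2 ^ z) = (de m).erase z := by
  rw [mem_de] at hz
  ext i
  rw [mem_erase, mem_de, mem_de, Nat.testBit_xor, Nat.testBit_two_pow]
  by_cases h : i = z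
  · subst h
    simp [hz.2]
  · simp [h, Ne.symm h]

theorem de_msk (l : List ℕ) (hl : ∀ i ∈ l, i ≤ 62) : de (msk l) = l.toFinset := by
  induction l with
  | nil => exact de_zero
  | cons i l ih =>
    have h : msk (i :: l) = 2 ^ i ||| msk l := rfl
    rw [h, de_or, de_pow (by have := hl i List.mem_cons_self; omega),
      ih (fun j hj => hl j (List.mem_cons_of_mem _ hj)), List.toFinset_cons, insert_eq]

theorem msk_lt (l : List ℕ) (hl : ∀ i ∈ l, i ≤ 62) : msk l < 2 ^ 63 := by
  induction l with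
  | nil => exact Nat.pos_of_ne_zero (by norm_num)
  | cons i l ih =>
    have h : msk (i :: l) = 2 ^ i ||| msk l := rfl
    rw [h]
    refine Nat.or_lt_two_pow ?_ (ih (fun j hj => hl j (List.mem_cons_of_mem _ hj)))
    exact Nat.pow_lt_pow_right (by norm_num) (by have := hl i List.mem_cons_self; omega)

theorem disj_of_land {a b : ℕ} (h : a &&& b = 0) : Disjoint (de a) (de b) := by
  rw [disjoint_iff_inter_eq_empty, ← de_and, h, de_zero]

/-! ### The exchange -/

theorem star_form {L B Ks : Finset (Finset ℕ)} {ρ ρ' : Finset ℕ} {v : ℕ}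
    (hK : ∀ κ ∈ Ks, Disjoint κ ρ) (hd : Disjoint ρ ρ')
    (hL : ∀ A, A ∈ L ↔ A ∈ B ∨ ∃ κ ∈ Ks, ∃ z' ∈ ρ', A = κ ∪ ρ ∪ ρ'.erase z')
    (hB : ∀ A ∈ B, ¬ ρ ⊆ A) (A : Finset ℕ) :
    A ∈ star L ρ v ↔ A ∈ B ∨ ∃ κ ∈ Ks, ∃ z ∈ ρ, ∃ z' ∈ ρ',
      A = insert v (κ ∪ ρ.erase z ∪ ρ'.erase z') := by
  have key : ∀ κ ∈ Ks, ∀ z ∈ ρ, ∀ z' : ℕ, (κ ∪ ρ ∪ ρ'.erase z').erase z =
      κ ∪ ρ.erase z ∪ ρ'.erase z' := by
    intro κ hκ z hz z'
    have h1 : z ∉ κ := fun h => disjoint_left.1 (hK κ hκ) h hz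
    have h2 : z ∉ ρ' := disjoint_left.1 hd hz
    ext y
    simp only [mem_erase, mem_union]
    constructor
    · rintro ⟨h3, (h4 | h4) | h4⟩
      · exact Or.inl (Or.inl h4)
      · exact Or.inl (Or.inr ⟨h3, h4⟩)
      · exact Or.inr h4
    · rintro ((h4 | h4) | h4)
      · exact ⟨fun h => h1 (by rw [← h]; exact h4), Or.inl (Or.inl h4)⟩
      · exact ⟨h4.1, Or.inl (Or.inr h4.2)⟩
      · exact ⟨fun h => h2 (by rw [← h]; exact h4.2), Or.inr h4⟩
  rw [mem_star]
  constructor
  · rintro (⟨h1, h2⟩ | ⟨F, h1, h2, z, hz, rfl⟩)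
    · rcases (hL A).1 h1 with h | ⟨κ, _, z', _, rfl⟩
      · exact Or.inl h
      · exact absurd (subset_union_right.trans subset_union_left) h2
    · rcases (hL F).1 h1 with h | ⟨κ, hκ, z', hz', rfl⟩
      · exact absurd h2 (hB F h)
      · exact Or.inr ⟨κ, hκ, z, hz, z', hz', by rw [key κ hκ z hz z']⟩
  · rintro (h | ⟨κ, hκ, z, hz, z', hz', rfl⟩)
    · exact Or.inl ⟨(hL A).2 (Or.inl h), hB A h⟩
    · refine Or.inr ⟨κ ∪ ρ ∪ ρ'.erase z', (hL _).2 (Or.inr ⟨κ, hκ, z', hz', rfl⟩),
        subset_union_right.trans subset_union_left, z, hz, ?_⟩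
      rw [key κ hκ z hz z']

theorem exch_star {L L' B Ks : Finset (Finset ℕ)} {ρ ρ' : Finset ℕ} {v : ℕ}
    (hK : ∀ κ ∈ Ks, Disjoint κ ρ ∧ Disjoint κ ρ') (hd : Disjoint ρ ρ')
    (hL : ∀ A, A ∈ L ↔ A ∈ B ∨ ∃ κ ∈ Ks, ∃ z' ∈ ρ', A = κ ∪ ρ ∪ ρ'.erase z')
    (hL' : ∀ A, A ∈ L' ↔ A ∈ B ∨ ∃ κ ∈ Ks, ∃ z ∈ ρ, A = κ ∪ ρ' ∪ ρ.erase z)
    (hB : ∀ A ∈ B, ¬ ρ ⊆ A) (hB' : ∀ A ∈ B, ¬ ρ' ⊆ A) : star L ρ v = star L' ρ' v := by
  ext A
  rw [star_form (fun κ h => (hK κ h).1) hd hL hB, star_form (fun κ h => (hK κ h).2) hd.symm hL' hB']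
  constructor
  · rintro (h | ⟨κ, hκ, z, hz, z', hz', rfl⟩)
    · exact Or.inl h
    · exact Or.inr ⟨κ, hκ, z', hz', z, hz, by rw [union_right_comm]⟩
  · rintro (h | ⟨κ, hκ, z', hz', z, hz, rfl⟩)
    · exact Or.inl h
    · exact Or.inr ⟨κ, hκ, z, hz, z', hz', by rw [union_right_comm]⟩

theorem le_lt63 {m : ℕ} (h : m ≤ 9223372036854775807) : m < 2 ^ 63 := by
  norm_num
  omega

theorem ble_iff {a b : ℕ} : Nat.ble a b = true ↔ a ≤ b := by
  rw [Nat.ble_eq]

/-- one exchange -/
theorem loc_homeo {R R' : List ℕ} {r r' : ℕ} {K new a b l : List ℕ}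
    (hl : ∀ m ∈ l, m < 2 ^ 63) (h : loc R R' r r' K new a = true)
    (ha : ∀ m, m ∈ a ↔ m ∈ l ∧ m &&& r = r) (hb : ∀ m, m ∈ b ↔ m ∈ l ∧ m &&& r ≠ r)
    (hn : ∀ m ∈ l, m &&& r ≠ r → m &&& r' ≠ r') :
    Nonempty (Sp (deL l) ≃ₜ Sp (deL (new.reverse ++ b))) ∧
      ∀ m ∈ new.reverse ++ b, m < 2 ^ 63 := by
  simp only [loc, an_iff, al_iff, ay_iff, beq_iff, ble_iff] at h
  obtain ⟨h1, h2, h3, h4, ⟨x, hx, -⟩, ⟨x', hx', -⟩, h7, h8, h9, h10, h11, h12, h13⟩ := h
  have hr : de r = R.toFinset := by rw [← h1]; exact de_msk R h3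
  have hr' : de r' = R'.toFinset := by rw [← h2]; exact de_msk R' h4
  have rlt : r < 2 ^ 63 := by rw [← h1]; exact msk_lt R h3
  have rlt' : r' < 2 ^ 63 := by rw [← h2]; exact msk_lt R' h4
  have hl' : ∀ m ∈ new.reverse ++ b, m < 2 ^ 63 := by
    intro m hm
    rw [List.mem_append, List.mem_reverse] at hm
    rcases hm with hm | hm
    · exact le_lt63 (h9 m hm)
    · exact hl m ((hb m).1 hm).1
  refine ⟨?_, hl'⟩
  have hv : ∀ l : List ℕ, (∀ m ∈ l, m < 2 ^ 63) → ∀ F ∈ deL l, 63 ∉ F := by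
    intro l hl F hF
    obtain ⟨m, hm, rfl⟩ := mem_deL.1 hF
    exact not_mem_63 (hl m hm)
  have ne : (de r).Nonempty := ⟨x, by rw [hr, List.mem_toFinset]; exact hx⟩
  have ne' : (de r').Nonempty := ⟨x', by rw [hr', List.mem_toFinset]; exact hx'⟩
  obtain ⟨e2⟩ := star_homeo (deL l) (de r) 63 ne (hv l hl) (not_mem_63 rlt)
  obtain ⟨e3⟩ := star_homeo (deL (new.reverse ++ b)) (de r') 63 ne' (hv _ hl') (not_mem_63 rlt')
  -- the masks of the facets
  have form : ∀ (k s s' z : ℕ), z ∈ de s' → de ((k ||| s) ||| (s' ^^^ 2 ^ z)) =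
      de k ∪ de s ∪ (de s').erase z := by
    intro k s s' z hz
    rw [de_or, de_or, de_xor hz]
  have heq : star (deL l) (de r) 63 = star (deL (new.reverse ++ b)) (de r') 63 := by
    refine exch_star (B := deL b) (Ks := deL K) ?_ (disj_of_land h8) ?_ ?_ ?_ ?_
    · intro κ hκ
      obtain ⟨k, hk, rfl⟩ := mem_deL.1 hκ
      exact ⟨disj_of_land (h7 k hk).1, disj_of_land (h7 k hk).2⟩
    · intro A
      rw [mem_deL, mem_deL]
      constructor
      · rintro ⟨m, hm, rfl⟩
        by_cases hmr : m &&& r = r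
        · obtain ⟨k, hk, z, hz, h⟩ := h10 m ((ha m).2 ⟨hm, hmr⟩)
          have hz' : z ∈ de r' := by rw [hr', List.mem_toFinset]; exact hz
          refine Or.inr ⟨de k, mem_deL.2 ⟨k, hk, rfl⟩, z, hz', ?_⟩
          rw [h]
          exact form k r r' z hz'
        · exact Or.inl ⟨m, (hb m).2 ⟨hm, hmr⟩, rfl⟩
      · rintro (⟨m, hm, rfl⟩ | ⟨κ, hκ, z, hz, rfl⟩)
        · exact ⟨m, ((hb m).1 hm).1, rfl⟩
        · obtain ⟨k, hk, rfl⟩ := mem_deL.1 hκ
          obtain ⟨m, hm, h⟩ := h11 k hk z (by rw [hr', List.mem_toFinset] at hz; exact hz)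
          refine ⟨m, ((ha m).1 hm).1, ?_⟩
          rw [h]
          exact form k r r' z hz
    · intro A
      rw [mem_deL, mem_deL]
      constructor
      · rintro ⟨m, hm, rfl⟩
        rw [List.mem_append, List.mem_reverse] at hm
        rcases hm with hm | hm
        · obtain ⟨k, hk, z, hz, h⟩ := h12 m hm
          have hz' : z ∈ de r := by rw [hr, List.mem_toFinset]; exact hz
          refine Or.inr ⟨de k, mem_deL.2 ⟨k, hk, rfl⟩, z, hz', ?_⟩
          rw [h]
          exact form k r' r z hz'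
        · exact Or.inl ⟨m, hm, rfl⟩
      · rintro (⟨m, hm, rfl⟩ | ⟨κ, hκ, z, hz, rfl⟩)
        · exact ⟨m, List.mem_append.2 (Or.inr hm), rfl⟩
        · obtain ⟨k, hk, rfl⟩ := mem_deL.1 hκ
          obtain ⟨m, hm, h⟩ := h13 k hk z (by rw [hr, List.mem_toFinset] at hz; exact hz)
          refine ⟨m, List.mem_append.2 (Or.inl (List.mem_reverse.2 hm)), ?_⟩
          rw [h]
          exact form k r' r z hz
    · intro A hA
      obtain ⟨m, hm, rfl⟩ := mem_deL.1 hA
      intro hs
      exact ((hb m).1 hm).2 ((land_eq' rlt).2 hs)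
    · intro A hA
      obtain ⟨m, hm, rfl⟩ := mem_deL.1 hA
      intro hs
      exact hn m ((hb m).1 hm).1 ((hb m).1 hm).2 ((land_eq' rlt').2 hs)
  rw [heq] at e2
  exact ⟨e2.symm.trans e3⟩

theorem ch_homeo (t : List ℕ) (s : List Stp) : ∀ l : List ℕ, (∀ m ∈ l, m < 2 ^ 63) →
    ch t s l = true → Nonempty (Sp (deL l) ≃ₜ Sp (deL t)) ∧ ∀ m ∈ t, m < 2 ^ 63 := by
  induction s with
  | nil =>
    intro l hl h
    have h1 : eql l t = true := h
    rw [← eql_eq l t h1]
    exact ⟨⟨Homeomorph.refl _⟩, hl⟩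
  | cons p s ih =>
    intro l hl h
    obtain ⟨R, R', r, r', K, new⟩ := p
    have h1 : trav r r' (fun a b => an (loc R R' r r' K new a) (psh (ch t s) new b)) l [] [] =
        true := h
    obtain ⟨a, b, h2, h3, h4, h5⟩ := trav_spec _ _ _ l [] [] h1
    rw [an_iff, psh_eq] at h2
    obtain ⟨⟨e1⟩, h6⟩ := loc_homeo (l := l) (b := b) hl h2.1
      (fun m => by rw [h3]; simp) (fun m => by rw [h4]; simp) h5
    obtain ⟨⟨e2⟩, h7⟩ := ih _ h6 h2.2
    exact ⟨⟨e1.trans e2⟩, h7⟩

end Pool.Agent.J4.H28.BC
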