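import Pool.Agent.J4.H28.BC.Fast

/-!
# Unions of `k`-fold acyclic complexes along `k`-fold acyclic complexes
-/

set_option autoImplicit false

namespace Pool.Agent.J4.H28.BC

open Finset Pool.Agent.Helper221.BID

variable {F : Type*} [Field F]

/-- the family is closed under taking subsets -/
def Down (A : Finset (Finset ℕ)) : Prop := ∀ σ ∈ A, ∀ ρ ⊆ σ, ρ ∈ A

theorem bdV_add (V : Finset ℕ) (f g : Finset ℕ → F) (ρ : Finset ℕ) :
    bdV V (fun σ => f σ + g σ) ρ = bdV V f ρ + bdV V g ρ := by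
  rw [bdV, bdV, bdV, ← sum_add_distrib]
  exact sum_congr rfl fun y _ => by ring

theorem bdV_sub (V : Finset ℕ) (f g : Finset ℕ → F) (ρ : Finset ℕ) :
    bdV V (fun σ => f σ - g σ) ρ = bdV V f ρ - bdV V g ρ := by
  rw [bdV, bdV, bdV, ← sum_sub_distrib]
  exact sum_congr rfl fun y _ => by ring

theorem bdV_supp {V : Finset ℕ} {A : Finset (Finset ℕ)} (hd : Down A) {c : Finset ℕ → F}
    (hc : ∀ σ, σ ∉ A → c σ = 0) {τ : Finset ℕ} (hτ : τ ∉ A) : bdV V c τ = 0 := by
  rw [bdV]
  refine sum_eq_zero fun x _ => ?_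
  rw [hc _ (fun h => hτ (hd _ h _ (subset_insert _ _))), mul_zero]

/-- the Mayer-Vietoris argument -/
theorem union_acyc {V : Finset ℕ} {A B : Finset (Finset ℕ)} (hdA : Down A) (hdB : Down B)
    (hA : AcycV F V A) (hB : AcycV F V B) (hI : AcycV F V (A ∩ B)) : AcycV F V (A ∪ B) := by
  intro c hc hbd
  set a : Finset ℕ → F := fun σ => if σ ∈ A then c σ else 0 with ha
  set b : Finset ℕ → F := fun σ => if σ ∈ A then 0 else c σ with hb
  have hab : ∀ ρ, bdV V a ρ + bdV V b ρ = 0 := by
    intro ρ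
    rw [← bdV_add, ← hbd ρ]
    congr 1
    funext σ
    simp only [ha, hb]
    split_ifs <;> simp
  have haA : ∀ σ, σ ∉ A → a σ = 0 := fun σ h => if_neg h
  have hbB : ∀ σ, σ ∉ B → b σ = 0 := by
    intro σ h
    simp only [hb]
    split_ifs with h1
    · rfl
    · exact hc σ (by rw [mem_union, not_or]; exact ⟨h1, h⟩)
  have h1 : ∀ σ, σ ∉ A ∩ B → bdV V a σ = 0 := by
    intro σ h
    by_cases hσA : σ ∈ A
    · have hσB : σ ∉ B := fun h2 => h (mem_inter.2 ⟨hσA, h2⟩)
      have h3 := hab σ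
      rw [bdV_supp hdB hbB hσB, add_zero] at h3
      exact h3
    · exact bdV_supp hdA haA hσA
  obtain ⟨e, he, he2⟩ := hI (bdV V a) h1 (bdV_bdV V a)
  obtain ⟨α, hα, hα2⟩ := hA (fun σ => a σ - e σ)
    (fun σ h => by
      show a σ - e σ = 0
      rw [haA σ h, he σ (fun h2 => h (mem_inter.1 h2).1), sub_zero])
    (fun ρ => by rw [bdV_sub, he2, sub_self])
  obtain ⟨β, hβ, hβ2⟩ := hB (fun σ => b σ + e σ)
    (fun σ h => by
      show b σ + e σ = 0
      rw [hbB σ h, he σ (fun h2 => h (mem_inter.1 h2).2), add_zero])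
    (fun ρ => by rw [bdV_add, he2, add_comm]; exact hab ρ)
  refine ⟨fun σ => α σ + β σ, ?_, ?_⟩
  · intro σ h
    rw [mem_union, not_or] at h
    show α σ + β σ = 0
    rw [hα σ h.1, hβ σ h.2, add_zero]
  · intro τ
    rw [bdV_add, hα2, hβ2]
    simp only [ha, hb]
    split_ifs <;> ring

/-- the link in a family -/
def lk (A : Finset (Finset ℕ)) (σ : Finset ℕ) : Finset (Finset ℕ) :=
  A.filter (fun τ => τ ∪ σ ∈ A ∧ Disjoint τ σ)

theorem lk_down {A : Finset (Finset ℕ)} (hd : Down A) (σ : Finset ℕ) : Down (lk A σ) := by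
  intro τ hτ ρ hρ
  rw [lk, mem_filter] at hτ ⊢
  exact ⟨hd _ hτ.1 _ hρ, hd _ hτ.2.1 _ (union_subset_union_left hρ), hτ.2.2.mono_left hρ⟩

/-- the links of the members with fewer than `k` elements are acyclic -/
def KF (F : Type*) [Field F] (V : Finset ℕ) (k : ℕ) (A : Finset (Finset ℕ)) : Prop :=
  ∀ σ ∈ A, σ.card < k → AcycV F V (lk A σ)

theorem lk_union_left {A B : Finset (Finset ℕ)} (hdA : Down A) (hdB : Down B) {σ : Finset ℕ}
    (h2 : σ ∉ B) : lk (A ∪ B) σ = lk A σ := by
  ext τ
  simp only [lk, mem_filter, mem_union]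
  constructor
  · rintro ⟨_, h | h, h4⟩
    · exact ⟨hdA _ h _ subset_union_left, h, h4⟩
    · exact absurd (hdB _ h _ subset_union_right) h2
  · rintro ⟨h3, h4, h5⟩
    exact ⟨Or.inl h3, Or.inl h4, h5⟩

theorem KF_union {V : Finset ℕ} {k : ℕ} {A B : Finset (Finset ℕ)} (hdA : Down A) (hdB : Down B)
    (hA : KF F V k A) (hB : KF F V k B) (hI : KF F V k (A ∩ B)) : KF F V k (A ∪ B) := by
  intro σ hσ hk
  by_cases h1 : σ ∈ A
  · by_cases h2 : σ ∈ B
    · have e1 : lk (A ∪ B) σ = lk A σ ∪ lk B σ := by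
        ext τ
        simp only [lk, mem_filter, mem_union]
        constructor
        · rintro ⟨_, h | h, h4⟩
          · exact Or.inl ⟨hdA _ h _ subset_union_left, h, h4⟩
          · exact Or.inr ⟨hdB _ h _ subset_union_left, h, h4⟩
        · rintro (⟨h3, h4, h5⟩ | ⟨h3, h4, h5⟩)
          · exact ⟨Or.inl h3, Or.inl h4, h5⟩
          · exact ⟨Or.inr h3, Or.inr h4, h5⟩
      have e2 : lk A σ ∩ lk B σ = lk (A ∩ B) σ := by
        ext τ
        simp only [lk, mem_filter, mem_inter]
        tauto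
      rw [e1]
      refine union_acyc (lk_down hdA σ) (lk_down hdB σ) (hA σ h1 hk) (hB σ h2 hk) ?_
      rw [e2]
      exact hI σ (mem_inter.2 ⟨h1, h2⟩) hk
    · rw [lk_union_left hdA hdB h2]
      exact hA σ h1 hk
  · rw [union_comm, lk_union_left hdB hdA h1]
    exact hB σ ((mem_union.1 hσ).resolve_left h1) hk

theorem KF_simplex {V m : Finset ℕ} {k : ℕ} (hm : m ⊆ V) (hk : k ≤ m.card) :
    KF F V k m.powerset := by
  intro σ hσ hc
  rw [mem_powerset] at hσ
  obtain ⟨n, hn, hnσ⟩ : ∃ n ∈ m, n ∉ σ := by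
    by_contra hcon
    push Not at hcon
    have := card_le_card (show m ⊆ σ from hcon)
    omega
  refine cone_acyc (n := n) (hm hn) ?_
  intro τ hτ
  rw [lk, mem_filter, mem_powerset, mem_powerset] at hτ ⊢
  obtain ⟨h1, h2, h3⟩ := hτ
  refine ⟨insert_subset hn h1, ?_, ?_⟩
  · rw [insert_union]
    exact insert_subset hn h2
  · rw [disjoint_insert_left]
    exact ⟨hnσ, h3⟩

/-! ### Complexes generated by lists of masks -/

/-- the complex generated by a list of masks -/
def gen (l : List ℕ) : Finset (Finset ℕ) := (deL l).biUnion Finset.powerset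

theorem mem_gen {l : List ℕ} {σ : Finset ℕ} : σ ∈ gen l ↔ ∃ m ∈ l, σ ⊆ de m := by
  rw [gen, mem_biUnion]
  constructor
  · rintro ⟨A, hA, h⟩
    obtain ⟨m, hm, rfl⟩ := mem_deL.1 hA
    exact ⟨m, hm, mem_powerset.1 h⟩
  · rintro ⟨m, hm, h⟩
    exact ⟨de m, mem_deL.2 ⟨m, hm, rfl⟩, mem_powerset.2 h⟩

theorem gen_down (l : List ℕ) : Down (gen l) := by
  intro σ hσ ρ hρ
  obtain ⟨m, hm, h⟩ := mem_gen.1 hσ
  exact mem_gen.2 ⟨m, hm, hρ.trans h⟩

theorem gen_append (l l' : List ℕ) : gen (l ++ l') = gen l ∪ gen l' := by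
  ext σ
  simp only [mem_gen, mem_union, List.mem_append]
  constructor
  · rintro ⟨m, h | h, h1⟩
    · exact Or.inl ⟨m, h, h1⟩
    · exact Or.inr ⟨m, h, h1⟩
  · rintro (⟨m, h, h1⟩ | ⟨m, h, h1⟩)
    · exact ⟨m, Or.inl h, h1⟩
    · exact ⟨m, Or.inr h, h1⟩

theorem gen_single (m : ℕ) : gen [m] = (de m).powerset := by
  ext σ
  simp [mem_gen]

theorem gen_reverse (l : List ℕ) : gen l.reverse = gen l := by
  ext σ
  simp only [mem_gen, List.mem_reverse]

/-- check that `a ∩ b` is contained in a member of `l3` -/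
noncomputable def inn (l3 : List ℕ) (a b : ℕ) : Bool :=
  ay (fun c => Nat.beq (Nat.land (Nat.land a b) c) (Nat.land a b)) l3

/-- check of an intersection of complexes; `w` contains all members of `l2` -/
noncomputable def inter (l1 l2 l3 : List ℕ) (w : ℕ) : Bool :=
  an (al (fun b => Nat.beq (Nat.land w b) b) l2) <|
  an (al (fun a => od (inn l3 a w) (al (fun b => inn l3 a b) l2)) l1) <|
  al (fun c => an (ay (fun a => Nat.beq (Nat.land a c) c) l1)
    (ay (fun b => Nat.beq (Nat.land b c) c) l2)) l3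

theorem sub_of_land {a b : ℕ} (h : a &&& b = b) : de b ⊆ de a := by
  rw [← h, de_and]
  exact inter_subset_left

theorem inn_sub {l3 : List ℕ} {a b : ℕ} (h : inn l3 a b = true) {σ : Finset ℕ} (ha : σ ⊆ de a)
    (hb : σ ⊆ de b) : ∃ c ∈ l3, σ ⊆ de c := by
  simp only [inn, ay_iff, beq_iff] at h
  obtain ⟨c, hc, h3⟩ := h
  refine ⟨c, hc, ?_⟩
  have h3' : (a &&& b) &&& c = a &&& b := h3
  have h4 : σ ⊆ de (a &&& b) := by
    rw [de_and]
    exact subset_inter ha hb
  rw [← h3', de_and] at h4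
  exact h4.trans inter_subset_right

theorem inter_gen {l1 l2 l3 : List ℕ} {w : ℕ} (h : inter l1 l2 l3 w = true) :
    gen l1 ∩ gen l2 = gen l3 := by
  simp only [inter, an_iff, od_iff, al_iff, ay_iff, beq_iff] at h
  obtain ⟨h0, h1, h2⟩ := h
  ext σ
  rw [mem_inter, mem_gen, mem_gen, mem_gen]
  constructor
  · rintro ⟨⟨a, ha, hσa⟩, ⟨b, hb, hσb⟩⟩
    rcases h1 a ha with h3 | h3
    · exact inn_sub h3 hσa (hσb.trans (sub_of_land (h0 b hb)))
    · exact inn_sub (h3 b hb) hσa hσb
  · rintro ⟨c, hc, h3⟩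
    obtain ⟨⟨a, ha, h4⟩, ⟨b, hb, h5⟩⟩ := h2 c hc
    exact ⟨⟨a, ha, h3.trans (sub_of_land h4)⟩, ⟨b, hb, h3.trans (sub_of_land h5)⟩⟩

/-- certificates of acyclicity -/
inductive Ct
  | leaf (l : List ℕ) (m : ℕ)
  | node (a b c : Ct)

/-- strictly increasing list of vertices below 46 -/
noncomputable def inc (l : List ℕ) : ℕ → Bool :=
  List.rec (motive := fun _ => ℕ → Bool) (fun x => Nat.ble x 46)
    (fun i _ ih x => an (Nat.ble x i) (ih (Nat.succ i))) l

theorem inc_spec (l : List ℕ) : ∀ x, inc l x = true → l.Nodup ∧ ∀ i ∈ l, x ≤ i ∧ i < 46 := by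
  induction l with
  | nil => intro x _; exact ⟨List.nodup_nil, by simp⟩
  | cons i l ih =>
    intro x h
    have h1 : inc (i :: l) x = an (Nat.ble x i) (inc l (i + 1)) := rfl
    rw [h1, an_iff, ble_iff] at h
    obtain ⟨h2, h3⟩ := h
    obtain ⟨h4, h5⟩ := ih _ h3
    have hi : i < 46 := by
      cases l with
      | nil =>
        have h6 : Nat.ble (i + 1) 46 = true := h3
        rw [ble_iff] at h6
        omega
      | cons j l =>
        have := h5 j List.mem_cons_self
        omega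
    refine ⟨List.nodup_cons.2 ⟨fun hm => ?_, h4⟩, ?_⟩
    · have := h5 i hm
      omega
    · intro j hj
      rcases List.mem_cons.1 hj with rfl | hj
      · exact ⟨h2, hi⟩
      · have := h5 j hj
        omega

/-- the length -/
noncomputable def len (l : List ℕ) : ℕ :=
  List.rec (motive := fun _ => ℕ) 0 (fun _ _ ih => Nat.succ ih) l

theorem len_eq (l : List ℕ) : len l = l.length := by
  induction l with
  | nil => rfl
  | cons i l ih =>
    have : len (i :: l) = len l + 1 := rfl
    rw [this, ih, List.length_cons]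

/-- `m` is the mask of the increasing list `l` -/
noncomputable def good (l : List ℕ) (m : ℕ) : Bool := an (inc l 0) (Nat.beq (msk l) m)

theorem good_spec {l : List ℕ} {m : ℕ} (h : good l m = true) :
    (de m).card = l.length ∧ de m ⊆ range 46 ∧ m < 2 ^ 63 := by
  rw [good, an_iff, beq_iff] at h
  obtain ⟨h1, h2⟩ := h
  obtain ⟨h3, h4⟩ := inc_spec l 0 h1
  have h5 : ∀ i ∈ l, i ≤ 62 := fun i hi => by have := (h4 i hi).2; omega
  have h6 : de m = l.toFinset := by rw [← h2]; exact de_msk l h5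
  refine ⟨by rw [h6, List.toFinset_card_of_nodup h3], ?_, by rw [← h2]; exact msk_lt l h5⟩
  rw [h6]
  intro i hi
  rw [List.mem_toFinset] at hi
  exact mem_range.2 (h4 i hi).2

/-- the facets described by a certificate -/
noncomputable def Ct.lst (c : Ct) : List ℕ :=
  Ct.rec (motive := fun _ => List ℕ) (fun _ m => [m]) (fun _ _ _ x y _ =>
    List.rec (motive := fun _ => List ℕ) y (fun i _ ih => i :: ih) x) c

theorem app_eq (x y : List ℕ) :
    List.rec (motive := fun _ => List ℕ) y (fun i _ ih => i :: ih) x = x ++ y := by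
  induction x with
  | nil => rfl
  | cons i x ih => rw [List.cons_append, ← ih]

theorem lst_node (a b c : Ct) : (Ct.node a b c).lst = a.lst ++ b.lst := app_eq _ _

/-- the check of a certificate -/
noncomputable def Ct.ok (c : Ct) : Bool :=
  Ct.rec (motive := fun _ => Bool) (fun l m => an (good l m) (Nat.ble 3 (len l)))
    (fun a b c x y z => an x (an y (an z (inter a.lst b.lst c.lst 70368744177663)))) c

theorem de_sub (m : ℕ) : de m ⊆ range 64 := filter_subset _ _

theorem leaf_kf {l : List ℕ} {m : ℕ} (h : an (good l m) (Nat.ble 3 (len l)) = true) :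
    KF F (range 64) 3 (gen [m]) := by
  rw [an_iff, ble_iff, len_eq] at h
  rw [gen_single]
  exact KF_simplex (de_sub m) (by rw [(good_spec h.1).1]; exact h.2)

theorem Ct.kf (c : Ct) (h : c.ok = true) : KF F (range 64) 3 (gen c.lst) := by
  induction c with
  | leaf l m => exact leaf_kf h
  | node a b c iha ihb ihc =>
    have h1 : an a.ok (an b.ok (an c.ok (inter a.lst b.lst c.lst 70368744177663))) = true := h
    simp only [an_iff] at h1
    obtain ⟨h1, h2, h3, h4⟩ := h1
    rw [lst_node, gen_append]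
    refine KF_union (gen_down _) (gen_down _) (iha h1) (ihb h2) ?_
    rw [inter_gen h4]
    exact ihc h3

/-- A gluing: certificates of the new part and of the intersection, the lists of their facets, and
a mask containing the new part. -/
structure Glu where
  b : Ct
  c : Ct
  l2 : List ℕ
  l3 : List ℕ
  w : ℕ

/-- successive gluings, from `l` to `t` (new facets are put in front) -/
noncomputable def run (t : List ℕ) (s : List Glu) : List ℕ → Bool :=
  List.rec (motive := fun _ => List ℕ → Bool) (fun l => eql l t)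
    (fun p _ ih l => Glu.rec (motive := fun _ => Bool)
      (fun b c l2 l3 w => an b.ok <| an c.ok <| an (eql b.lst l2) <| an (eql c.lst l3) <|
        an (inter l l2 l3 w) (psh ih l2 l)) p) s

theorem run_kf (t : List ℕ) (s : List Glu) : ∀ l : List ℕ, run t s l = true →
    KF F (range 64) 3 (gen l) → KF F (range 64) 3 (gen t) := by
  induction s with
  | nil =>
    intro l h hl
    have h1 : eql l t = true := h
    rw [← eql_eq l t h1]
    exact hl
  | cons p s ih =>
    intro l h hl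
    obtain ⟨b, c, l2, l3, w⟩ := p
    have h1 : an b.ok (an c.ok (an (eql b.lst l2) (an (eql c.lst l3)
        (an (inter l l2 l3 w) (psh (run t s) l2 l))))) = true := h
    simp only [an_iff] at h1
    obtain ⟨h1, h2, h3, h4, h5, h6⟩ := h1
    rw [psh_eq] at h6
    refine ih _ h6 ?_
    rw [gen_append, gen_reverse, union_comm]
    refine KF_union (gen_down _) (gen_down _) hl ?_ ?_
    · rw [← eql_eq _ _ h3]
      exact b.kf h1
    · rw [inter_gen h5, ← eql_eq _ _ h4]
      exact c.kf h2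

end Pool.Agent.J4.H28.BC
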