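import Pool.Agent.J4.H28.BC.Kf

/-!
# Gadgets in a decomposition; cones
-/

set_option autoImplicit false

namespace Pool.Agent.J4.H28.BC

open Finset Pool.Agent.Helper221.BID

/-- search for an injective assignment of facets to edges without conflict; `true` means none -/
noncomputable def srch (fs : List ℕ) (es : List ℕ) : List (ℕ × ℕ) → Bool :=
  List.rec (motive := fun _ => List (ℕ × ℕ) → Bool) (fun _ => false)
    (fun e _ ih acc => al (fun f => od (ng (Nat.beq (Nat.land f e) e))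
      (od (ay (fun q => an (ng (Nat.beq q.1 e))
        (Nat.beq (Nat.land (Nat.land f q.2) (Nat.lor e q.1)) (Nat.lor e q.1))) acc)
        (ih ((e, f) :: acc)))) fs) es

theorem srch_sound (P : ℕ → ℕ → Prop)
    (hP : ∀ e f e' f', P e f → P e' f' → e' ≠ e → (f &&& f') &&& (e ||| e') ≠ (e ||| e'))
    (fs : List ℕ) (es : List ℕ) : ∀ acc : List (ℕ × ℕ), srch fs es acc = true →
    (∀ q ∈ acc, P q.1 q.2) → (∀ e ∈ es, ∃ f ∈ fs, f &&& e = e ∧ P e f) → False := by
  induction es with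
  | nil => intro acc h; exact absurd h (by simp [srch])
  | cons e es ih =>
    intro acc h hacc hes
    have h0 : al (fun f => od (ng (Nat.beq (Nat.land f e) e))
      (od (ay (fun q => an (ng (Nat.beq q.1 e))
        (Nat.beq (Nat.land (Nat.land f q.2) (Nat.lor e q.1)) (Nat.lor e q.1))) acc)
        (srch fs es ((e, f) :: acc)))) fs = true := h
    simp only [al_iff, od_iff, ng_iff, ay_iff, an_iff, beq_iff] at h0
    obtain ⟨f, hf, h1, h2⟩ := hes e List.mem_cons_self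
    rcases h0 f hf with h3 | ⟨q, hq, h3, h4⟩ | h3
    · exact h3 h1
    · exact hP e f q.1 q.2 h2 (hacc q hq) h3 h4
    · refine ih _ h3 ?_ (fun e' he' => hes e' (List.mem_cons_of_mem _ he'))
      intro q hq
      rcases List.mem_cons.1 hq with rfl | hq
      · exact h2
      · exact hacc q hq

/-- A gadget: `es` are the masks of its new edges, `fs` the masks of its facets. -/
structure Gad (Δ : Cpx) (es fs : List ℕ) : Prop where
  lt_e : ∀ e ∈ es, e < 2 ^ 63
  lt_f : ∀ f ∈ fs, f < 2 ^ 63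
  card_e : ∀ e ∈ es, (de e).card = 2
  face_e : ∀ e ∈ es, de e ∈ Δ.faces
  face_f : ∀ σ ∈ Δ.faces, ∀ e ∈ es, de e ⊆ σ → σ.card = 5 → ∃ f ∈ fs, de f = σ
  no : srch fs es [] = true

theorem land_of_sub {a b : ℕ} (hb : b < 2 ^ 63) (h : de b ⊆ de a) : a &&& b = b :=
  (land_eq' hb).2 h

/-- every gadget meets an interval whose bottom has at most one element -/
theorem Gad.low {Δ : Cpx} {es fs : List ℕ} (g : Gad Δ es fs) {D : Finset (Finset ℕ × Finset ℕ)}
    (hD : Δ.IsDecomp 3 D) : ∃ p ∈ D, p.1.card ≤ 1 ∧ ∃ e ∈ es, de e ⊆ p.2 := by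
  by_contra hcon
  push Not at hcon
  obtain ⟨h1, h2⟩ := hD
  refine srch_sound (fun e f => e ∈ es ∧ f ∈ fs ∧ (de e, de f) ∈ D) ?_ fs es [] g.no
    (by simp) ?_
  · rintro e f e' f' ⟨he, hf, hp⟩ ⟨he', hf', hp'⟩ hne hc
    have hsub : de (e ||| e') ⊆ de (f &&& f') := sub_of_land hc
    rw [de_or, de_and] at hsub
    have hs1 : de e ∪ de e' ⊆ de f := hsub.trans inter_subset_left
    have hs2 : de e ∪ de e' ⊆ de f' := hsub.trans inter_subset_right
    have hface : de e ∪ de e' ∈ Δ.faces := Δ.down _ (h1 _ hp).2.1 _ hs1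
    obtain ⟨q, -, hq⟩ := h2 _ hface
    have e1 := hq _ ⟨hp, subset_union_left, hs1⟩
    have e2 := hq _ ⟨hp', subset_union_right, hs2⟩
    have e3 : de e' = de e := by
      have := e1.trans e2.symm
      exact (congrArg Prod.fst this).symm
    apply hne
    have l1 := land_of_sub (g.lt_e e' he') (le_of_eq e3)
    have l2 := land_of_sub (g.lt_e e he) (le_of_eq e3.symm)
    rw [← l1, Nat.and_comm]
    exact l2
  · intro e he
    obtain ⟨p, ⟨hp, hp1, hp2⟩, -⟩ := h2 _ (g.face_e e he)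
    have hc := hcon p hp
    have h3 : ¬ p.1.card ≤ 1 := fun h => hc h e he hp2
    have h4 : p.1 = de e := by
      apply eq_of_subset_of_card_le hp1
      rw [g.card_e e he]
      omega
    obtain ⟨h5, h6, h7⟩ := h1 p hp
    have h8 : p.2.card = 5 := by
      have := card_sdiff_add_card_eq_card h5
      rw [h7, h4, g.card_e e he] at this
      omega
    obtain ⟨f, hf, h9⟩ := g.face_f _ h6 e he hp2 h8
    refine ⟨f, hf, ?_, he, hf, ?_⟩
    · apply land_of_sub (g.lt_e e he)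
      rw [h9]
      exact hp2
    · rw [h9, ← h4]
      exact hp

/-- the number of intervals whose bottoms have at most one element -/
theorem low_card {Δ : Cpx} {N : ℕ} (hN : ∀ σ ∈ Δ.faces, σ ⊆ range N)
    {D : Finset (Finset ℕ × Finset ℕ)} (hD : Δ.IsDecomp 3 D) :
    (D.filter (fun p => p.1.card ≤ 1)).card + 2 ≤ N := by
  obtain ⟨h1, h2⟩ := hD
  obtain ⟨p0, ⟨hp0, ha, -⟩, -⟩ := h2 ∅ Δ.empty_mem
  have hb : p0.1 = ∅ := subset_empty.1 ha
  obtain ⟨-, hf0, hc0⟩ := h1 p0 hp0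
  rw [hb, sdiff_empty] at hc0
  have hmem : p0 ∈ D.filter (fun p => p.1.card ≤ 1) := by
    rw [mem_filter, hb]
    exact ⟨hp0, by simp⟩
  have key : ((D.filter (fun p => p.1.card ≤ 1)).erase p0).card ≤
      ((range N \ p0.2).image (fun v => ({v} : Finset ℕ))).card := by
    refine card_le_card_of_injOn (fun p => p.1) ?_ ?_
    · intro p hp
      rw [mem_coe, mem_erase, mem_filter] at hp
      obtain ⟨hne, hp, hc⟩ := hp
      obtain ⟨h5, h6, h7⟩ := h1 p hp
      have h8 : p.1.card ≠ 0 := by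
        intro h0
        rw [card_eq_zero] at h0
        apply hne
        obtain ⟨q, -, hq⟩ := h2 ∅ Δ.empty_mem
        rw [hq p ⟨hp, le_of_eq h0, empty_subset _⟩, hq p0 ⟨hp0, ha, empty_subset _⟩]
      obtain ⟨v, hv⟩ := card_eq_one.1 (show p.1.card = 1 by omega)
      rw [mem_coe, mem_image]
      refine ⟨v, ?_, hv.symm⟩
      have hv2 : v ∈ p.2 := h5 (by rw [hv]; exact mem_singleton_self v)
      rw [mem_sdiff]
      refine ⟨hN _ h6 hv2, ?_⟩
      intro hv0
      apply hne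
      have hface : ({v} : Finset ℕ) ∈ Δ.faces := Δ.down _ h6 _ (singleton_subset_iff.2 hv2)
      obtain ⟨q, -, hq⟩ := h2 _ hface
      rw [hq p ⟨hp, by rw [hv], singleton_subset_iff.2 hv2⟩,
        hq p0 ⟨hp0, by rw [hb]; exact empty_subset _, singleton_subset_iff.2 hv0⟩]
    · intro p hp q hq hpq
      rw [mem_coe, mem_erase, mem_filter] at hp hq
      obtain ⟨-, hp, -⟩ := hp
      obtain ⟨-, hq, -⟩ := hq
      have hpq' : p.1 = q.1 := hpq
      obtain ⟨r, -, hr⟩ := h2 _ (Δ.down _ (h1 p hp).2.1 _ (h1 p hp).1)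
      rw [hr p ⟨hp, Subset.refl _, (h1 p hp).1⟩,
        hr q ⟨hq, by rw [hpq'], by rw [hpq']; exact (h1 q hq).1⟩]
  rw [card_image_of_injective _ (fun a b h => singleton_injective h)] at key
  have h9 : (range N \ p0.2).card = N - 3 := by
    rw [card_sdiff_of_subset (hN _ hf0), card_range, hc0]
  have h10 : 3 ≤ N := by
    have := card_le_card (hN _ hf0)
    rw [card_range, hc0] at this
    exact this
  rw [h9, card_erase_of_mem hmem] at key
  omega

/-- a decomposition of a cone gives one of the base -/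
theorem cone_decomp_base {Δ : Cpx} {n k : ℕ} (hn : Δ.Fresh n)
    (h : ∃ D, (cone Δ n).IsDecomp (k + 1) D) : ∃ D, Δ.IsDecomp k D := by
  classical
  obtain ⟨D, h1, h2⟩ := h
  -- an element of each interval
  have hx : ∀ p ∈ D, ∃ x, x ∈ p.2 \ p.1 := by
    intro p hp
    have := (h1 p hp).2.2
    exact card_pos.1 (by omega)
  choose! x hx using hx
  let E : Finset ℕ × Finset ℕ → Finset (Finset ℕ × Finset ℕ) := fun p =>
    if n ∈ p.1 then ∅ else if n ∈ p.2 then {(p.1, p.2.erase n)}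
    else {(p.1, p.2.erase (x p)), (insert (x p) p.1, p.2)}
  have hE : ∀ p q, q ∈ E p ↔ n ∉ p.1 ∧ ((n ∈ p.2 ∧ q = (p.1, p.2.erase n)) ∨
      (n ∉ p.2 ∧ (q = (p.1, p.2.erase (x p)) ∨ q = (insert (x p) p.1, p.2)))) := by
    intro p q
    simp only [E]
    split_ifs with h3 h4
    · simp [h3]
    · simp [h3, h4]
    · simp [h3, h4]
  have hmem : ∀ τ : Finset ℕ, n ∉ τ → (τ ∈ (cone Δ n).faces ↔ τ ∈ Δ.faces) := by
    intro τ hτ
    rw [mem_cone hn, erase_eq_of_notMem hτ]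
  -- members of `E p` are inside `p`
  have hin : ∀ p ∈ D, ∀ q ∈ E p, p.1 ⊆ q.1 ∧ q.2 ⊆ p.2 := by
    intro p hp q hq
    obtain ⟨h3, ⟨h4, rfl⟩ | ⟨h4, rfl | rfl⟩⟩ := (hE p q).1 hq
    · exact ⟨Subset.refl _, erase_subset _ _⟩
    · exact ⟨Subset.refl _, erase_subset _ _⟩
    · exact ⟨subset_insert _ _, Subset.refl _⟩
  refine ⟨D.biUnion E, ?_, ?_⟩
  · intro q hq
    rw [mem_biUnion] at hq
    obtain ⟨p, hp, hq⟩ := hq
    obtain ⟨h5, h6, h7⟩ := h1 p hp
    obtain ⟨hx1, hx2⟩ := mem_sdiff.1 (hx p hp)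
    have hcard : p.2.card = p.1.card + (k + 1) := by
      have := card_sdiff_add_card_eq_card h5
      omega
    obtain ⟨h3, ⟨h4, rfl⟩ | ⟨h4, rfl | rfl⟩⟩ := (hE p q).1 hq
    · have hs : p.1 ⊆ p.2.erase n := fun y hy => mem_erase.2
        ⟨fun h => h3 (by rw [← h]; exact hy), h5 hy⟩
      refine ⟨hs, ?_, ?_⟩
      · have := h6
        rwa [mem_cone hn] at this
      · show (p.2.erase n \ p.1).card = k
        rw [card_sdiff_of_subset hs, card_erase_of_mem h4]
        omega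
    · have hs : p.1 ⊆ p.2.erase (x p) := fun y hy => mem_erase.2
        ⟨fun h => hx2 (by rw [← h]; exact hy), h5 hy⟩
      refine ⟨hs, ?_, ?_⟩
      · exact Δ.down _ ((hmem _ h4).1 h6) _ (erase_subset _ _)
      · show (p.2.erase (x p) \ p.1).card = k
        rw [card_sdiff_of_subset hs, card_erase_of_mem hx1]
        omega
    · have hs : insert (x p) p.1 ⊆ p.2 := insert_subset hx1 h5
      refine ⟨hs, (hmem _ h4).1 h6, ?_⟩
      show (p.2 \ insert (x p) p.1).card = k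
      rw [card_sdiff_of_subset hs, card_insert_of_notMem hx2]
      omega
  · intro τ hτ
    have hnτ : n ∉ τ := hn τ hτ
    obtain ⟨p, ⟨hp, hp1, hp2⟩, hpu⟩ := h2 τ ((hmem τ hnτ).2 hτ)
    have hnp : n ∉ p.1 := fun h => hnτ (hp1 h)
    -- uniqueness of the source
    have hsrc : ∀ q ∈ D.biUnion E, q.1 ⊆ τ → τ ⊆ q.2 → q ∈ E p := by
      intro q hq hq1 hq2
      rw [mem_biUnion] at hq
      obtain ⟨p', hp', hq⟩ := hq
      obtain ⟨h8, h9⟩ := hin p' hp' q hq
      have := hpu p' ⟨hp', h8.trans hq1, hq2.trans h9⟩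
      rwa [this] at hq
    by_cases hn2 : n ∈ p.2
    · refine ⟨(p.1, p.2.erase n), ⟨?_, hp1, ?_⟩, ?_⟩
      · rw [mem_biUnion]
        exact ⟨p, hp, (hE p _).2 ⟨hnp, Or.inl ⟨hn2, rfl⟩⟩⟩
      · intro y hy
        exact mem_erase.2 ⟨fun h => hnτ (by rw [← h]; exact hy), hp2 hy⟩
      · rintro q ⟨hq, hq1, hq2⟩
        obtain ⟨-, ⟨-, h⟩ | ⟨h, -⟩⟩ := (hE p q).1 (hsrc q hq hq1 hq2)
        · exact h
        · exact absurd hn2 h
    · by_cases hxτ : x p ∈ τ
      · refine ⟨(insert (x p) p.1, p.2), ⟨?_, insert_subset hxτ hp1, hp2⟩, ?_⟩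
        · rw [mem_biUnion]
          exact ⟨p, hp, (hE p _).2 ⟨hnp, Or.inr ⟨hn2, Or.inr rfl⟩⟩⟩
        · rintro q ⟨hq, hq1, hq2⟩
          obtain ⟨-, ⟨h, -⟩ | ⟨-, h | h⟩⟩ := (hE p q).1 (hsrc q hq hq1 hq2)
          · exact absurd h hn2
          · rw [h] at hq2
            exact absurd (hq2 hxτ) (notMem_erase _ _)
          · exact h
      · refine ⟨(p.1, p.2.erase (x p)), ⟨?_, hp1, ?_⟩, ?_⟩
        · rw [mem_biUnion]
          exact ⟨p, hp, (hE p _).2 ⟨hnp, Or.inr ⟨hn2, Or.inl rfl⟩⟩⟩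
        · intro y hy
          exact mem_erase.2 ⟨fun h => hxτ (by rw [← h]; exact hy), hp2 hy⟩
        · rintro q ⟨hq, hq1, hq2⟩
          obtain ⟨-, ⟨h, -⟩ | ⟨-, h | h⟩⟩ := (hE p q).1 (hsrc q hq hq1 hq2)
          · exact absurd h hn2
          · exact h
          · rw [h] at hq1
            exact absurd (hq1 (mem_insert_self _ _)) hxτ

end Pool.Agent.J4.H28.BC
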