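import Pool.Agent.J4.H28.BC.ChA3
import Pool.Agent.J4.H28.BC.ChB1
import Pool.Agent.J4.H28.BC.DataC
import Pool.Agent.J4.H28.BC.NoDec
import Pool.Agent.Helper221.BID.ConeBall

/-!
# A 3-fold acyclic 4-ball without a decomposition into rank 3 boolean intervals
-/

set_option autoImplicit false

namespace Pool.Agent.J4.H28.BC

open Finset Pool.Agent.Helper221.BID Pool.Agent.Helper175.NS

/-- check that the masks `M` are the masks of the increasing lists `V` of length `n` -/
noncomputable def zok (n : ℕ) (V : List (List ℕ)) : List ℕ → Bool :=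
  List.rec (motive := fun _ => List ℕ → Bool)
    (fun M => List.rec (motive := fun _ => Bool) true (fun _ _ _ => false) M)
    (fun l _ ih M => List.rec (motive := fun _ => Bool) false
      (fun m M' _ => an (good l m) (an (Nat.beq (len l) n) (ih M'))) M) V

theorem zok_spec (n : ℕ) (V : List (List ℕ)) : ∀ M : List ℕ, zok n V M = true →
    ∀ m ∈ M, (de m).card = n ∧ de m ⊆ range 46 ∧ m < 2 ^ 63 := by
  induction V with
  | nil =>
    intro M h
    cases M with
    | nil => simp
    | cons x t => exact absurd h (by simp [zok])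
  | cons l V ih =>
    intro M h
    cases M with
    | nil => simp
    | cons x t =>
      have h1 : an (good l x) (an (Nat.beq (len l) n) (zok n V t)) = true := h
      rw [an_iff, an_iff, beq_iff, len_eq] at h1
      intro m hm
      rcases List.mem_cons.1 hm with rfl | hm
      · have := good_spec h1.1
        rw [h1.2.1] at this
        exact this
      · exact ih t h1.2.2 m hm

theorem empty_mem_gen {l : List ℕ} (h : ay (fun _ => true) l = true) :
    (∅ : Finset ℕ) ∈ gen l := by
  obtain ⟨m, hm, -⟩ := ay_iff.1 h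
  exact mem_gen.2 ⟨m, hm, empty_subset _⟩

theorem ML_ne : ay (fun _ => true) ML = true := by decide +kernel

attribute [local irreducible] ML VL GDL P10

/-- The 4-ball with 46 vertices and 515 facets. -/
def CX : Cpx where
  faces := gen ML
  empty_mem := empty_mem_gen ML_ne
  down := gen_down ML

theorem mem_CX {σ : Finset ℕ} : σ ∈ CX.faces ↔ ∃ m ∈ ML, σ ⊆ de m := mem_gen

theorem ML_ok : zok 5 VL ML = true := by decide +kernel

theorem CX_range {σ : Finset ℕ} (h : σ ∈ CX.faces) : σ ⊆ range 46 := by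
  obtain ⟨m, hm, h1⟩ := mem_CX.1 h
  exact h1.trans (zok_spec 5 VL ML ML_ok m hm).2.1

/-! ### The ball -/

theorem space_eq_Sp : CX.space = Sp (deL ML) := by
  ext x
  constructor
  · rintro ⟨h0, σ, hσ, h1, h2⟩
    obtain ⟨f, hf, h3⟩ := mem_CX.1 hσ
    refine ⟨h0, de f, mem_deL.2 ⟨f, hf, rfl⟩, fun v hv => h1 v (fun h => hv (h3 h)), ?_⟩
    rw [← h2]
    exact (sum_subset h3 (fun i _ hi => h1 i hi)).symm
  · rintro ⟨h0, F, hF, h1, h2⟩
    obtain ⟨f, hf, rfl⟩ := mem_deL.1 hF
    exact ⟨h0, de f, mem_CX.2 ⟨f, hf, Subset.refl _⟩, h1, h2⟩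

/-- the spaces of two complexes are homeomorphic and the masks of the second one are small -/
def Rel (l t : List ℕ) : Prop :=
  (∀ m ∈ l, m < 2 ^ 63) → Nonempty (Sp (deL l) ≃ₜ Sp (deL t)) ∧ ∀ m ∈ t, m < 2 ^ 63

theorem Rel.trans {a b c : List ℕ} (h : Rel a b) (h' : Rel b c) : Rel a c := by
  intro ha
  obtain ⟨⟨e⟩, hb⟩ := h ha
  obtain ⟨⟨e'⟩, hc⟩ := h' hb
  exact ⟨⟨e.trans e'⟩, hc⟩

theorem rel_of_ch {l t : List ℕ} {s : List Stp} (h : ch t s l = true) : Rel l t :=
  fun hl => ch_homeo t s l hl h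

theorem rel_all : Rel ML [31] :=
  (rel_of_ch ch0).trans <| (rel_of_ch ch1).trans <| (rel_of_ch ch2).trans <|
  (rel_of_ch ch3).trans <| (rel_of_ch ch4).trans <| (rel_of_ch ch5).trans <|
  (rel_of_ch ch6).trans <| (rel_of_ch ch7).trans <| (rel_of_ch ch8).trans <|
  (rel_of_ch ch9).trans <| (rel_of_ch ch10).trans <| (rel_of_ch ch11).trans <|
  (rel_of_ch ch12).trans <| (rel_of_ch ch13).trans <| (rel_of_ch ch14).trans <|
  (rel_of_ch ch15).trans <| (rel_of_ch ch16).trans <| (rel_of_ch ch17).trans <|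
  (rel_of_ch ch18).trans <| (rel_of_ch ch19).trans <| (rel_of_ch ch20).trans <|
  (rel_of_ch ch21).trans <| (rel_of_ch ch22).trans (rel_of_ch ch23)

theorem CX_ball : CX.IsBall 4 := by
  obtain ⟨⟨e2⟩, -⟩ := rel_all (fun m hm => (zok_spec 5 VL ML ML_ok m hm).2.2)
  have h1 : deL [31] = {de 31} := rfl
  rw [h1] at e2
  obtain ⟨e3⟩ := Pool.Agent.H933R3.simplex_ball (de 31) 4 (by decide +kernel)
  exact ⟨(Homeomorph.setCongr space_eq_Sp).trans (e2.trans e3)⟩

/-! ### Acyclicity -/

theorem leaf31 : an (good [0, 1, 2, 3, 4] 31) (Nat.ble 3 (len [0, 1, 2, 3, 4])) = true := by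
  decide +kernel

theorem P10_eq : psh (fun b => eql P10 b) ML [] = true := by decide +kernel

theorem ML_kf {F : Type*} [Field F] : KF F (range 64) 3 (gen ML) := by
  have h : KF F (range 64) 3 (gen P10) :=
    run_kf _ _ _ run9 <| run_kf _ _ _ run8 <| run_kf _ _ _ run7 <| run_kf _ _ _ run6 <|
    run_kf _ _ _ run5 <| run_kf _ _ _ run4 <| run_kf _ _ _ run3 <| run_kf _ _ _ run2 <|
    run_kf _ _ _ run1 <| run_kf _ _ _ run0 (leaf_kf leaf31)
  have h1 := P10_eq
  rw [psh_eq] at h1
  rw [eql_eq _ _ h1, List.append_nil, gen_reverse] at h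
  exact h

theorem CX_kfold {F : Type*} [Field F] : CX.KFoldAcyclic F 3 := by
  intro σ hσ hc
  refine acyclic_of (V := range 64) ?_ (ML_kf σ hσ hc)
  intro τ hτ
  rw [Cpx.link, mem_filter] at hτ
  exact (CX_range hτ.1).trans (range_subset_range.2 (by norm_num))

/-! ### The gadgets -/

/-- the check of a gadget -/
noncomputable def gadOK (g : Gd) : Bool :=
  Gd.rec (motive := fun _ => Bool) (fun ev es fs =>
    an (zok 2 ev es) <| an (al (fun f => Nat.ble f 9223372036854775807) fs) <|
    an (al (fun e => ay (fun m => Nat.beq (Nat.land m e) e) ML) es) <|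
    an (al (fun m => al (fun e => od (ng (Nat.beq (Nat.land m e) e))
      (ay (fun f => Nat.beq f m) fs)) es) ML) (srch fs es [])) g

theorem gad_ok : al gadOK GDL = true := by decide +kernel

theorem gadOK_spec {g : Gd} (h : gadOK g = true) : (zok 2 g.ev g.es = true) ∧
    (∀ f ∈ g.fs, f < 2 ^ 63) ∧ (∀ e ∈ g.es, ∃ m ∈ ML, m &&& e = e) ∧
    (∀ m ∈ ML, ∀ e ∈ g.es, m &&& e = e → m ∈ g.fs) ∧ srch g.fs g.es [] = true := by
  obtain ⟨ev, es, fs⟩ := g
  have h1 : an (zok 2 ev es) (an (al (fun f => Nat.ble f 9223372036854775807) fs)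
    (an (al (fun e => ay (fun m => Nat.beq (Nat.land m e) e) ML) es)
    (an (al (fun m => al (fun e => od (ng (Nat.beq (Nat.land m e) e))
      (ay (fun f => Nat.beq f m) fs)) es) ML) (srch fs es [])))) = true := h
  simp only [an_iff, al_iff, ay_iff, od_iff, ng_iff, beq_iff, ble_iff] at h1
  obtain ⟨h2, h3, h4, h5, h6⟩ := h1
  refine ⟨h2, fun f hf => le_lt63 (h3 f hf), h4, ?_, h6⟩
  intro m hm e he hme
  rcases h5 m hm e he with h7 | ⟨f, hf, h7⟩
  · exact absurd hme h7
  · rw [← h7]
    exact hf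

/-- the facets of the ball that contain a new edge of a gadget are facets of the gadget -/
theorem gad_up {g : Gd} (hg : g ∈ GDL) {m e : ℕ} (hm : m ∈ ML)
    (he : e ∈ g.es) (h : m &&& e = e) : m ∈ g.fs :=
  (gadOK_spec (al_iff.1 gad_ok g hg)).2.2.2.1 m hm e he h

theorem gad_gad {g : Gd} (hg : g ∈ GDL) : Gad CX g.es g.fs := by
  obtain ⟨h1, h2, h3, -, h5⟩ := gadOK_spec (al_iff.1 gad_ok g hg)
  have h6 := zok_spec 2 _ _ h1
  refine ⟨fun e he => (h6 e he).2.2, h2, fun e he => (h6 e he).1, ?_, ?_, h5⟩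
  · intro e he
    obtain ⟨m, hm, h7⟩ := h3 e he
    exact mem_CX.2 ⟨m, hm, sub_of_land h7⟩
  · intro σ hσ e he hsub hc
    obtain ⟨m, hm, h7⟩ := mem_CX.1 hσ
    have h8 : σ = de m := eq_of_subset_of_card_le h7
      (by rw [(zok_spec 5 VL ML ML_ok m hm).1, hc])
    subst h8
    exact ⟨m, gad_up hg hm he (land_of_sub (h6 e he).2.2 hsub), rfl⟩

/-- pairwise disjointness of the lists of facets -/
noncomputable def pw (l : List Gd) : Bool :=
  List.rec (motive := fun _ => Bool) true (fun g t ih =>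
    an (al (fun g' => al (fun f => ng (ay (fun f' => Nat.beq f f') (Gd.fs g'))) (Gd.fs g)) t) ih) l

theorem pw_spec (l : List Gd) (h : pw l = true) :
    l.Pairwise (fun g g' => ∀ f ∈ g.fs, f ∉ g'.fs) := by
  induction l with
  | nil => exact List.Pairwise.nil
  | cons g t ih =>
    have h1 : an (al (fun g' => al (fun f => ng (ay (fun f' => Nat.beq f f') (Gd.fs g')))
      (Gd.fs g)) t) (pw t) = true := h
    simp only [an_iff, al_iff, ay_iff, ng_iff, beq_iff] at h1
    refine List.Pairwise.cons ?_ (ih h1.2)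
    intro g' hg' f hf hf'
    exact h1.1 g' hg' f hf ⟨f, hf', rfl⟩

theorem GDL_pw : pw GDL = true := by decide +kernel

theorem GDL_ne : al (fun g => ay (fun _ => true) (Gd.fs g)) GDL = true := by decide +kernel

theorem GDL_len : GDL.length = 45 := by decide +kernel

theorem CX_nodec : ¬ ∃ D, CX.IsDecomp 3 D := by
  rintro ⟨D, hD⟩
  have h1 := low_card (N := 46) (fun σ hσ => CX_range hσ) hD
  have h2 : ∀ i : Fin GDL.length, ∃ p ∈ D, p.1.card ≤ 1 ∧ ∃ e ∈ (GDL.get i).es, de e ⊆ p.2 :=
    fun i => (gad_gad (List.get_mem GDL i)).low hD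
  choose p hp hp1 hp2 using h2
  have h3 : (univ : Finset (Fin GDL.length)).card ≤
      (D.filter (fun p => p.1.card ≤ 1)).card := by
    refine card_le_card_of_injOn p ?_ ?_
    · intro i _
      rw [mem_coe, mem_filter]
      exact ⟨hp i, hp1 i⟩
    · -- two gadgets never meet the same interval
      have key : ∀ i j : Fin GDL.length, i < j → p i ≠ p j := by
        intro i j hij hpp
        obtain ⟨e, he, h4⟩ := hp2 i
        obtain ⟨e', he', h5⟩ := hp2 j
        rw [← hpp] at h5
        obtain ⟨m, hm, h6⟩ := mem_CX.1 (hD.1 _ (hp i)).2.1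
        have hgi := List.get_mem GDL i
        have hgj := List.get_mem GDL j
        have l1 := gad_up hgi hm he (land_of_sub ((gad_gad hgi).lt_e e he) (h4.trans h6))
        have l2 := gad_up hgj hm he' (land_of_sub ((gad_gad hgj).lt_e e' he') (h5.trans h6))
        exact (List.pairwise_iff_get.1 (pw_spec GDL GDL_pw)) i j hij m l1 l2
      intro i _ j _ hpp
      rcases lt_trichotomy i j with h | h | h
      · exact absurd hpp (key i j h)
      · exact h
      · exact absurd hpp.symm (key j i h)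
  rw [card_univ, Fintype.card_fin, GDL_len] at h3
  omega

/-! ### Iterated cones -/

/-- the iterated cones over the complex `CX` -/
def KX : ℕ → Cpx
  | 0 => CX
  | m + 1 => cone (KX m) (46 + m)

theorem KX_range (m : ℕ) : ∀ σ ∈ (KX m).faces, σ ⊆ range (46 + m) := by
  induction m with
  | zero => intro σ hσ; exact CX_range hσ
  | succ m ih =>
    have hn : (KX m).Fresh (46 + m) := fun σ hσ h => by
      have := mem_range.1 (ih σ hσ h)
      omega
    intro σ hσ i hi
    rw [KX, mem_cone hn] at hσ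
    rw [mem_range]
    by_cases h : i = 46 + m
    · omega
    · have := mem_range.1 (ih _ hσ (mem_erase.2 ⟨h, hi⟩))
      omega

theorem KX_fresh (m : ℕ) : (KX m).Fresh (46 + m) := fun σ hσ h => by
  have := mem_range.1 (KX_range m σ hσ h)
  omega

theorem KX_ball (m : ℕ) : (KX m).IsBall (m + 4) := by
  induction m with
  | zero => exact CX_ball
  | succ m ih =>
    have := cone_ball (KX_fresh m) ih
    rwa [show m + 4 + 1 = m + 1 + 4 by omega] at this

theorem KX_kfold (F : Type*) [Field F] (m : ℕ) : (KX m).KFoldAcyclic F (m + 3) := by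
  induction m with
  | zero => exact CX_kfold
  | succ m ih =>
    have := cone_kfold (KX_fresh m) ih
    rwa [show m + 3 + 1 = m + 1 + 3 by omega] at this

theorem KX_nodec (m : ℕ) : ¬ ∃ D, (KX m).IsDecomp (m + 3) D := by
  induction m with
  | zero => exact CX_nodec
  | succ m ih =>
    intro h
    apply ih
    rw [show m + 1 + 3 = m + 3 + 1 by omega] at h
    exact cone_decomp_base (KX_fresh m) h

end Pool.Agent.J4.H28.BC
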